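import Pool.Agent.H500.SV.Stm
import Pool.Agent.H500.R2.Gal

set_option autoImplicit false

/-!
# Project SV, part 5: finitely many solvable extensions of bounded degree
-/

namespace Pool.Agent.H357.SV.HM

open NumberField IsDedekindDomain
open Pool.Agent.W401.Cheb (GK IsFrob IsInert dens)
open Pool.Agent.H500.R2 (UnrOut)
open Pool.Agent.H500.SV (Fld Above S_Fld S_HM)

/-- characters of finite abelian quotients separate -/
theorem sep {G : Type} [Group G] (U : Subgroup G) (hn : U.Normal) (hf : U.index ≠ 0)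
    (hc : commutator G ≤ U) (g : G) (hg : g ∉ U) :
    ∃ θ : G →* ℂˣ, U ≤ θ.ker ∧ (∀ x, θ x ^ U.index = 1) ∧ θ g ≠ 1 := by
  have hcomm : IsMulCommutative (G ⧸ U) :=
    Subgroup.Normal.quotient_commutative_iff_commutator_le.mpr hc
  let _ : CommGroup (G ⧸ U) := { (inferInstance : Group (G ⧸ U)) with
    mul_comm := fun a b => hcomm.is_comm.comm a b }
  have hfi : U.FiniteIndex := ⟨hf⟩
  have hfin : Finite (G ⧸ U) := Subgroup.finite_quotient_of_finiteIndex
  have hne : NeZero (Monoid.exponent (G ⧸ U)) := ⟨Monoid.exponent_ne_zero_of_finite⟩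
  have hg' : (QuotientGroup.mk' U g : G ⧸ U) ≠ 1 := by
    intro h
    exact hg ((QuotientGroup.eq_one_iff g).mp h)
  obtain ⟨φ, hφ⟩ := CommGroup.exists_apply_ne_one_of_hasEnoughRootsOfUnity (G ⧸ U) ℂ hg'
  refine ⟨φ.comp (QuotientGroup.mk' U), ?_, ?_, hφ⟩
  · intro x hx
    rw [MonoidHom.mem_ker, MonoidHom.comp_apply]
    have : (QuotientGroup.mk' U x : G ⧸ U) = 1 := (QuotientGroup.eq_one_iff x).mpr hx
    rw [this, map_one]
  · intro x
    rw [MonoidHom.comp_apply, ← map_pow]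
    have : (QuotientGroup.mk' U x) ^ U.index = 1 := by
      rw [Subgroup.index, pow_card_eq_one']
    rw [this, map_one]

/-- `U ⊔ [G, G] ≠ ⊤` for `U ≠ ⊤` with solvable quotient -/
theorem sup_ne_top {G : Type} [Group G] (U : Subgroup G) (hn : U.Normal) (hU : U ≠ ⊤)
    (hs : ∃ r, derivedSeries G r ≤ U) : U ⊔ commutator G ≠ ⊤ := by
  intro h
  obtain ⟨r, hr⟩ := hs
  have hsurj := QuotientGroup.mk'_surjective U
  have hsol : Group.IsSolvable (G ⧸ U) := by
    refine ⟨r, ?_⟩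
    rw [← map_derivedSeries_eq hsurj, eq_bot_iff, Subgroup.map_le_iff_le_comap]
    intro x hx
    rw [Subgroup.mem_comap, Subgroup.mem_bot]
    exact (QuotientGroup.eq_one_iff x).mpr (hr hx)
  have hnt : Nontrivial (G ⧸ U) := by
    obtain ⟨x, hx⟩ := not_forall.mp (fun h' => hU (Subgroup.eq_top_iff' U |>.mpr h'))
    exact ⟨(x : G ⧸ U), 1, fun h' => hx ((QuotientGroup.eq_one_iff x).mp h')⟩
  have h1 := Group.IsSolvable.commutator_lt_top_of_nontrivial (G ⧸ U)
  apply h1.ne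
  have h2 : (commutator G).map (QuotientGroup.mk' U) = commutator (G ⧸ U) := by
    rw [commutator_def, commutator_def, Subgroup.map_commutator,
      Subgroup.map_top_of_surjective _ hsurj]
  rw [← h2]
  have h3 : (U ⊔ commutator G).map (QuotientGroup.mk' U) = ⊤ := by
    rw [h, Subgroup.map_top_of_surjective _ hsurj]
  rw [Subgroup.map_sup] at h3
  rw [← h3, eq_comm, sup_eq_right]
  rw [Subgroup.map_le_iff_le_comap]
  intro x hx
  rw [Subgroup.mem_comap]
  have : (QuotientGroup.mk' U x : G ⧸ U) = 1 := (QuotientGroup.eq_one_iff x).mpr hx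
  rw [this]
  exact Subgroup.one_mem _

theorem index_ne {K : Type} [Field K] [NumberField K] (U : Subgroup (GK K))
    (hU : IsOpen (U : Set (GK K))) : U.index ≠ 0 := by
  have hfin : Finite (GK K ⧸ U) := Subgroup.quotient_finite_of_isOpen _ hU
  exact Subgroup.index_ne_zero_of_finite

/-- finitely many abelian extensions -/
theorem ab_fin (hF : Pool.Agent.H500.R2.S_FinChar) (K : Type) [Field K] [NumberField K] (N D : ℕ)
    (hN : 2 ≤ N) :
    {U : Subgroup (GK K) | U.Normal ∧ IsOpen (U : Set (GK K)) ∧ U.index ≤ D ∧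
      commutator (GK K) ≤ U ∧ UnrOut N U}.Finite := by
  have h1 := hF K N D.factorial hN (Nat.factorial_pos D)
  refine Set.Finite.of_finite_image (f := fun U : Subgroup (GK K) => {θ : GK K →* ℂˣ |
    (IsOpen (θ.ker : Set (GK K)) ∧ (∀ σ, θ σ ^ D.factorial = 1) ∧ UnrOut N θ.ker) ∧ U ≤ θ.ker}) ?_ ?_
  · refine h1.finite_subsets.subset ?_
    rintro _ ⟨U, -, rfl⟩ θ hθ
    exact hθ.1
  · have key : ∀ U V : Subgroup (GK K), (U.Normal ∧ IsOpen (U : Set (GK K)) ∧ U.index ≤ D ∧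
      commutator (GK K) ≤ U ∧ UnrOut N U) → {θ : GK K →* ℂˣ |
    (IsOpen (θ.ker : Set (GK K)) ∧ (∀ σ, θ σ ^ D.factorial = 1) ∧ UnrOut N θ.ker) ∧ U ≤ θ.ker} =
      {θ : GK K →* ℂˣ |
    (IsOpen (θ.ker : Set (GK K)) ∧ (∀ σ, θ σ ^ D.factorial = 1) ∧ UnrOut N θ.ker) ∧ V ≤ θ.ker} →
      V ≤ U := by
      rintro U V ⟨hn, ho, hi, hc, hu⟩ h g hg
      by_contra hgU
      obtain ⟨θ, h2, h3, h4⟩ := sep U hn (index_ne U ho) hc g hgU
      have h5 : θ ∈ {θ : GK K →* ℂˣ |
        (IsOpen (θ.ker : Set (GK K)) ∧ (∀ σ, θ σ ^ D.factorial = 1) ∧ UnrOut N θ.ker) ∧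
          U ≤ θ.ker} := by
        refine ⟨⟨Subgroup.isOpen_mono h2 ho, fun σ => ?_, fun v hv σ hσ => h2 (hu v hv σ hσ)⟩, h2⟩
        obtain ⟨c, hc⟩ := Nat.dvd_factorial (Nat.pos_of_ne_zero (index_ne U ho)) hi
        rw [hc, pow_mul, h3, one_pow]
      rw [h] at h5
      exact h4 (h5.2 hg)
    intro U hU V hV h
    exact le_antisymm (key V U hV h.symm) (key U V hU h)

/-- the place below -/
theorem exists_below {K L : Type} [Field K] [NumberField K] [Field L] [NumberField L] [Algebra K L]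
    (w : HeightOneSpectrum (𝓞 L)) : ∃ v : HeightOneSpectrum (𝓞 K), Above w v := by
  have hp : w.asIdeal.IsPrime := w.isPrime
  refine ⟨⟨w.asIdeal.comap (algebraMap (𝓞 K) (𝓞 L)), inferInstance, ?_⟩, rfl⟩
  intro h
  apply w.ne_bot
  exact Ideal.eq_bot_of_comap_eq_bot h

/-- the inductive step -/
theorem fib {K : Type} [Field K] [NumberField K] (hFld : S_Fld) (N D : ℕ)
    (ih : ∀ (L : Type) [Field L] [NumberField L],
      {U : Subgroup (GK L) | U.Normal ∧ IsOpen (U : Set (GK L)) ∧ U.index ≤ D ∧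
        (∃ r, derivedSeries (GK L) r ≤ U) ∧ UnrOut N U}.Finite)
    (U1 : Subgroup (GK K)) (hn : U1.Normal) (ho : IsOpen (U1 : Set (GK K))) (h1 : U1 ≠ ⊤) :
    {U : Subgroup (GK K) | (U.Normal ∧ IsOpen (U : Set (GK K)) ∧ U.index ≤ D + 1 ∧
      (∃ r, derivedSeries (GK K) r ≤ U) ∧ UnrOut N U) ∧ U ≤ U1}.Finite := by
  obtain ⟨L, _, _, _, ι, hL⟩ := hFld K U1 hn ho
  refine ((ih L).image (fun V => V.map ι)).subset ?_
  rintro U ⟨⟨hUn, hUo, hUi, ⟨r, hr⟩, hUu⟩, hU⟩
  refine ⟨U.comap ι, ⟨hUn.comap ι, hL.comap_open U hUo, ?_, ⟨r, ?_⟩, ?_⟩, ?_⟩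
  · rw [Subgroup.index_comap, hL.range]
    have h2 := Subgroup.relIndex_mul_index hU
    have h3 : U1.index ≠ 1 := fun h => h1 (Subgroup.index_eq_one.mp h)
    have h4 := index_ne U1 ho
    have h5 := index_ne U hUo
    have h6 : 2 ≤ U1.index := by omega
    have h7 : U.relIndex U1 ≠ 0 := by
      intro h
      rw [h, zero_mul] at h2
      exact h5 h2.symm
    nlinarith [Nat.pos_of_ne_zero h7]
  · rw [← Subgroup.map_le_iff_le_comap]
    exact (map_derivedSeries_le_derivedSeries ι r).trans hr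
  · intro w hw s hs
    obtain ⟨v, hv⟩ := exists_below (K := K) w
    rw [Subgroup.mem_comap]
    refine hUu v ?_ _ (hL.inert v w hv s hs)
    intro h
    apply hw
    rw [← hv, Ideal.mem_comap, map_natCast] at h
    exact h
  · show (U.comap ι).map ι = U
    rw [Subgroup.map_comap_eq, hL.range]
    exact inf_eq_right.mpr hU

theorem main : Pool.Agent.H500.R2.S_FinChar → Pool.Agent.H500.SV.S_Fld →
    Pool.Agent.H500.SV.S_HM := by
  intro hF hFld K _ _ N D hN
  induction D generalizing K with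
  | zero =>
    refine Set.Finite.subset Set.finite_empty ?_
    rintro U ⟨-, ho, hi, -⟩
    exact (index_ne U ho (Nat.le_zero.mp hi)).elim
  | succ D ih =>
    have h1 : {U : Subgroup (GK K) | (U.Normal ∧
      IsOpen (U : Set (GK K)) ∧ U.index ≤ D + 1 ∧ commutator (GK K) ≤ U ∧
      UnrOut N U) ∧ U ≠ ⊤}.Finite := (ab_fin hF K N (D + 1) hN).subset (fun U h => h.1)
    have h2 := h1.biUnion (t := fun U1 => {U : Subgroup (GK K) | (U.Normal ∧
      IsOpen (U : Set (GK K)) ∧ U.index ≤ D + 1 ∧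
      (∃ r, derivedSeries (GK K) r ≤ U) ∧ UnrOut N U) ∧ U ≤ U1})
      (fun U1 h => fib hFld N D (fun L _ _ => ih L) U1 h.1.1 h.1.2.1 h.2)
    refine (h2.union (Set.finite_singleton (⊤ : Subgroup (GK K)))).subset ?_
    intro U hU
    by_cases ht : U = ⊤
    · right
      exact ht
    · left
      rw [Set.mem_iUnion₂]
      obtain ⟨hn, ho, hi, hs, hu⟩ := hU
      have ho' : IsOpen ((U ⊔ commutator (GK K) : Subgroup (GK K)) : Set (GK K)) :=
        Subgroup.isOpen_mono le_sup_left ho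
      refine ⟨U ⊔ commutator (GK K), ⟨⟨?_, ho', ?_, le_sup_right, ?_⟩,
        sup_ne_top U hn ht hs⟩, ⟨hn, ho, hi, hs, hu⟩, le_sup_left⟩
      · infer_instance
      · refine le_trans ?_ hi
        have hfi : U.FiniteIndex := ⟨index_ne U ho⟩
        exact Subgroup.index_antitone le_sup_left
      · intro v hv σ hσ
        exact (le_sup_left : U ≤ U ⊔ commutator (GK K)) (hu v hv σ hσ)

end Pool.Agent.H357.SV.HM
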